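import Pool.Agent.H211.HY.Stm1
import Pool.Graph.R_seed8.H790R3.RB.TPQ
import Pool.Graph.R_seed8.H792R2.CE.D9

/-! Task DUAL of the project HY (helper211): dual vectors. -/

set_option autoImplicit false

open Topology Filter Metric Set MeasureTheory Polynomial

namespace Pool.Agent.H401.HY211

open Pool.Agent.H211.HY Pool.Agent.H790R3.RB

/-- homogeneous lower bound -/
theorem hF_lower {d : ℕ} (x : CV d) (hx : ND x) :
    ∃ c : ℝ, 0 < c ∧ ∀ p : ℂ × ℂ, p ≠ 0 → c * ‖p‖ ^ d ≤ ‖hF x p‖ := by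
  have hcont : Continuous (fun p : ℂ × ℂ => ‖hF x p‖) := by
    have h1 := (hF_contDiff d 1).continuous
    exact (h1.comp (Continuous.prodMk continuous_const continuous_id)).norm
  have hne : (sphere (0 : ℂ × ℂ) 1).Nonempty := ⟨(1, 0), by simp [Prod.norm_def]⟩
  obtain ⟨q, hq, hmin⟩ := (isCompact_sphere (0 : ℂ × ℂ) 1).exists_isMinOn hne hcont.continuousOn
  have hq0 : q ≠ 0 := by
    rintro rfl
    simp at hq
  refine ⟨‖hF x q‖, norm_pos_iff.2 fun h => hq0 (hx q h), fun p hp => ?_⟩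
  have hp0 : 0 < ‖p‖ := norm_pos_iff.2 hp
  set t : ℂ := ((‖p‖ : ℝ) : ℂ) with ht
  have ht0 : t ≠ 0 := by rw [ht]; exact_mod_cast hp0.ne'
  have htn : ‖t‖ = ‖p‖ := by rw [ht, Complex.norm_real, norm_norm]
  have h1 : t⁻¹ • p ∈ sphere (0 : ℂ × ℂ) 1 := by
    rw [mem_sphere_zero_iff_norm, norm_smul, norm_inv, htn, inv_mul_cancel₀ hp0.ne']
  have h2 : ‖hF x q‖ ≤ ‖hF x (t⁻¹ • p)‖ := hmin h1
  rw [hF_smul, norm_smul, norm_pow, norm_inv, htn] at h2
  have h3 : 0 < ‖p‖ ^ d := pow_pos hp0 d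
  calc ‖hF x q‖ * ‖p‖ ^ d ≤ (‖p‖⁻¹ ^ d * ‖hF x p‖) * ‖p‖ ^ d :=
        mul_le_mul_of_nonneg_right h2 h3.le
    _ = ‖hF x p‖ := by
        rw [inv_pow]
        field_simp

/-- upper bound of the values of a polynomial of degree at most `2 d` -/
theorem eval_upper {D : ℕ} {S : ℂ[X]} (hS : S.natDegree ≤ D) (z : ℂ) :
    ‖S.eval z‖ ≤ (∑ i ∈ Finset.range (D + 1), ‖S.coeff i‖) * (max ‖z‖ 1) ^ D := by
  rw [eval_eq_sum_range' (Nat.lt_succ_of_le hS), Finset.sum_mul]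
  refine (norm_sum_le _ _).trans (Finset.sum_le_sum fun i hi => ?_)
  rw [norm_mul, norm_pow]
  refine mul_le_mul_of_nonneg_left ?_ (norm_nonneg _)
  have hi' : i ≤ D := Nat.lt_succ_iff.1 (Finset.mem_range.1 hi)
  exact (pow_le_pow_left₀ (norm_nonneg _) (le_max_left _ _) i).trans
    (pow_le_pow_right₀ (le_max_right _ _) hi')

/-- the values of a polynomial of degree at most `2 d` are at most `C (|P|² + |Q|²)` -/
theorem eval_le {d : ℕ} (x : CV d) (hx : ND x) {S : ℂ[X]} (hS : S.natDegree ≤ 2 * d) :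
    ∃ C : ℝ, 0 ≤ C ∧ ∀ z : ℂ,
      ‖S.eval z‖ ≤ C * (‖(pol x 0).eval z‖ ^ 2 + ‖(pol x 1).eval z‖ ^ 2) := by
  obtain ⟨c, hc, hlow⟩ := hF_lower x hx
  set A : ℝ := ∑ i ∈ Finset.range (2 * d + 1), ‖S.coeff i‖ with hA
  have hA0 : 0 ≤ A := Finset.sum_nonneg fun _ _ => norm_nonneg _
  refine ⟨A / c ^ 2, div_nonneg hA0 (sq_nonneg c), fun z => ?_⟩
  have h1 := eval_upper hS z
  have hne : ((z, 1) : ℂ × ℂ) ≠ 0 := by
    intro h
    have h2 := congrArg Prod.snd h
    simp at h2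
  have h3 := hlow (z, 1) hne
  rw [PQ.hF_one, Prod.norm_def, Prod.norm_def] at h3
  simp only [norm_one] at h3
  set M : ℝ := max ‖z‖ 1 with hM
  have hM0 : 0 ≤ M := le_trans zero_le_one (le_max_right _ _)
  set p : ℝ := ‖(pol x 0).eval z‖
  set q : ℝ := ‖(pol x 1).eval z‖
  have hp : 0 ≤ p := norm_nonneg _
  have hq : 0 ≤ q := norm_nonneg _
  have h4 : (max p q) ^ 2 ≤ p ^ 2 + q ^ 2 := by
    rcases max_choice p q with h | h <;> rw [h] <;> nlinarith [sq_nonneg p, sq_nonneg q]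
  have h5 : (c * M ^ d) ^ 2 ≤ p ^ 2 + q ^ 2 :=
    (pow_le_pow_left₀ (by positivity) h3 2).trans h4
  have h6 : M ^ (2 * d) ≤ (p ^ 2 + q ^ 2) / c ^ 2 := by
    rw [le_div_iff₀ (by positivity)]
    calc M ^ (2 * d) * c ^ 2 = (c * M ^ d) ^ 2 := by ring
      _ ≤ _ := h5
  calc ‖S.eval z‖ ≤ A * M ^ (2 * d) := h1
    _ ≤ A * ((p ^ 2 + q ^ 2) / c ^ 2) := mul_le_mul_of_nonneg_left h6 hA0
    _ = A / c ^ 2 * (p ^ 2 + q ^ 2) := by ring

/-- the series of `WF` converge absolutely -/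
theorem summ {d k : ℕ} (x : CV d) (c : Fin k → ℂ) (m : Fin k → ℕ) (v α : Fin k → ℕ → ℂ) (K μ : ℝ)
    (hx : ND x) (hO : Orbs (pol x 0) (pol x 1) d k c m v α K μ) {S : ℂ[X]}
    (hS : S.natDegree ≤ 2 * d) (i : Fin k) :
    Summable fun j => S.eval (v i j) / (Wp (pol x 0) (pol x 1)).eval (v i j) * α i j := by
  obtain ⟨C, hC, hb⟩ := eval_le x hx hS
  have hg : Summable fun j : ℕ => C * (K * μ ^ (j + 1)) := by
    have h1 : Summable fun j : ℕ => μ ^ j := summable_geometric_of_lt_one hO.μ0.le hO.μ1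
    have h2 : (fun j : ℕ => C * (K * μ ^ (j + 1))) = fun j : ℕ => (C * K * μ) * μ ^ j := by
      funext j
      ring
    rw [h2]
    exact h1.mul_left _
  refine Summable.of_norm_bounded hg fun j => ?_
  have hQ := hO.Qv i j
  have hW := hO.Wv i j
  have h1 : S.eval (v i j) / (Wp (pol x 0) (pol x 1)).eval (v i j) * α i j =
      S.eval (v i j) / (pol x 1).eval (v i j) ^ 2 * α i (j + 1) := by
    rw [hO.αs]
    field_simp
  have hQn : 0 < ‖(pol x 1).eval (v i j)‖ := norm_pos_iff.2 hQ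
  rw [h1, norm_mul, norm_div, norm_pow]
  have h2 : ‖S.eval (v i j)‖ / ‖(pol x 1).eval (v i j)‖ ^ 2 ≤ C * (1 + ‖v i (j + 1)‖ ^ 2) := by
    rw [div_le_iff₀ (by positivity), hO.vs, norm_div, div_pow]
    refine (hb (v i j)).trans (le_of_eq ?_)
    field_simp
    ring
  calc ‖S.eval (v i j)‖ / ‖(pol x 1).eval (v i j)‖ ^ 2 * ‖α i (j + 1)‖
      ≤ C * (1 + ‖v i (j + 1)‖ ^ 2) * ‖α i (j + 1)‖ :=
        mul_le_mul_of_nonneg_right h2 (norm_nonneg _)
    _ = C * (‖α i (j + 1)‖ * (1 + ‖v i (j + 1)‖ ^ 2)) := by ring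
    _ ≤ C * (K * μ ^ (j + 1)) := mul_le_mul_of_nonneg_left (hO.gr i (j + 1)) hC

theorem WF_add {d k : ℕ} (x : CV d) (c : Fin k → ℂ) (m : Fin k → ℕ) (v α : Fin k → ℕ → ℂ)
    (K μ : ℝ) (hx : ND x) (hO : Orbs (pol x 0) (pol x 1) d k c m v α K μ) {S T : ℂ[X]}
    (hS : S.natDegree ≤ 2 * d) (hT : T.natDegree ≤ 2 * d) (i : Fin k) :
    WF (pol x 0) (pol x 1) c v α i (S + T) =
      WF (pol x 0) (pol x 1) c v α i S + WF (pol x 0) (pol x 1) c v α i T := by
  have h1 := (summ x c m v α K μ hx hO hS i).tsum_add (summ x c m v α K μ hx hO hT i)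
  unfold WF
  rw [eval_add, add_div]
  have h2 : (fun j => (S + T).eval (v i j) / (Wp (pol x 0) (pol x 1)).eval (v i j) * α i j) =
      fun j => S.eval (v i j) / (Wp (pol x 0) (pol x 1)).eval (v i j) * α i j +
        T.eval (v i j) / (Wp (pol x 0) (pol x 1)).eval (v i j) * α i j := by
    funext j
    rw [eval_add, add_div, add_mul]
  rw [h2, h1]
  ring

theorem WF_smul {k : ℕ} (P Q : ℂ[X]) (c : Fin k → ℂ) (v α : Fin k → ℕ → ℂ) (a : ℂ) (S : ℂ[X])
    (i : Fin k) : WF P Q c v α i (a • S) = a * WF P Q c v α i S := by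
  unfold WF
  have h2 : (fun j => (a • S).eval (v i j) / (Wp P Q).eval (v i j) * α i j) =
      fun j => a * (S.eval (v i j) / (Wp P Q).eval (v i j) * α i j) := by
    funext j
    rw [eval_smul, smul_eq_mul]
    ring
  rw [h2, tsum_mul_left, eval_smul, smul_eq_mul]
  ring

/-- the polynomials of degree at most `2 d` which satisfy `Tng` -/
noncomputable def TV (Q : ℂ[X]) {k : ℕ} (c : Fin k → ℂ) (m : Fin k → ℕ) (d : ℕ) :
    Submodule ℂ ℂ[X] where
  carrier := {S | S.natDegree ≤ 2 * d ∧ Tng Q c m S}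
  add_mem' := by
    rintro S T ⟨hS, hS'⟩ ⟨hT, hT'⟩
    refine ⟨(natDegree_add_le _ _).trans (max_le hS hT), fun i => ?_⟩
    obtain ⟨a, ha⟩ := hS' i
    obtain ⟨b, hb⟩ := hT' i
    refine ⟨a + b, ?_⟩
    have h := dvd_add ha hb
    have h2 : S + T - C (a + b) * Q ^ 2 = S - C a * Q ^ 2 + (T - C b * Q ^ 2) := by
      rw [C_add]
      ring
    rw [h2]
    exact h
  zero_mem' := ⟨by simp, fun i => ⟨0, by simp⟩⟩
  smul_mem' := by
    rintro t S ⟨hS, hS'⟩
    refine ⟨(natDegree_smul_le t S).trans hS, fun i => ?_⟩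
    obtain ⟨a, ha⟩ := hS' i
    refine ⟨t * a, ?_⟩
    have h2 : t • S - C (t * a) * Q ^ 2 = C t * (S - C a * Q ^ 2) := by
      rw [C_mul, smul_eq_C_mul]
      ring
    rw [h2]
    exact Dvd.dvd.mul_left ha _

/-- every polynomial of degree at most `2 d` is the numerator of a variation -/
theorem exists_Up {d : ℕ} (hd : 1 ≤ d) (x : CV d) (hx : ND x) {S : ℂ[X]}
    (hS : S.natDegree ≤ 2 * d) : ∃ b : CV d, Up x b = S := by
  obtain ⟨hcop, hdeg⟩ := PQ.part1 hd x hx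
  have hP := PQ.pol_natDegree x 0
  have hQ := PQ.pol_natDegree x 1
  have key : ∃ A B : ℂ[X], A.natDegree ≤ d ∧ B.natDegree ≤ d ∧ A * pol x 1 - B * pol x 0 = S := by
    rcases max_choice (pol x 0).natDegree (pol x 1).natDegree with h | h
    · rw [hdeg] at h
      obtain ⟨H, G, hH, hG, e⟩ := Pool.Agent.H792R2.CE.D9_bezout hcop.symm hQ h.symm (by omega) hS
      exact ⟨-G, -H, by rwa [natDegree_neg], by rwa [natDegree_neg], by rw [← e]; ring⟩
    · rw [hdeg] at h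
      obtain ⟨H, G, hH, hG, e⟩ := Pool.Agent.H792R2.CE.D9_bezout hcop hP h.symm (by omega) hS
      exact ⟨H, G, hH, hG, by rw [← e]; ring⟩
  obtain ⟨A, B, hA, hB, e⟩ := key
  set b : CV d := fun r => if r.1 = 0 then A.coeff (r.2 : ℕ) else B.coeff (r.2 : ℕ) with hb
  have h0 : pol b 0 = A := by
    ext j
    rcases le_or_gt j d with h | h
    · have := PQ.pol_coeff b 0 ⟨j, Nat.lt_succ_of_le h⟩
      simp only at this
      rw [this, hb]
      simp
    · rw [PQ.pol_coeff_gt b 0 j h, coeff_eq_zero_of_natDegree_lt (hA.trans_lt h)]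
  have h1 : pol b 1 = B := by
    ext j
    rcases le_or_gt j d with h | h
    · have := PQ.pol_coeff b 1 ⟨j, Nat.lt_succ_of_le h⟩
      simp only at this
      rw [this, hb]
      simp
    · rw [PQ.pol_coeff_gt b 1 j h, coeff_eq_zero_of_natDegree_lt (hB.trans_lt h)]
  refine ⟨b, ?_⟩
  unfold Up
  rw [h0, h1, e]

theorem t_DUAL : S_DUAL := by
  classical
  intro d k x c m v α K μ hd hx hO hind
  -- the linear map
  let Φ : TV (pol x 1) c m d →ₗ[ℂ] (Fin k → ℂ) :=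
    { toFun := fun S i => WF (pol x 0) (pol x 1) c v α i (S : ℂ[X])
      map_add' := by
        intro S T
        funext i
        exact WF_add x c m v α K μ hx hO S.2.1 T.2.1 i
      map_smul' := by
        intro a S
        funext i
        exact WF_smul (pol x 0) (pol x 1) c v α a S i }
  have hsurj : LinearMap.range Φ = ⊤ := by
    by_contra hne
    obtain ⟨f, hf0, hf⟩ := Submodule.exists_le_ker_of_lt_top (LinearMap.range Φ)
      (lt_top_iff_ne_top.2 hne)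
    apply hf0
    have hβ := hind (fun i => f (Pi.single i 1)) (fun S hS hT => by
      have h1 : Φ ⟨S, hS, hT⟩ ∈ LinearMap.ker f := hf ⟨_, rfl⟩
      rw [LinearMap.mem_ker, LinearMap.pi_apply_eq_sum_univ f (Φ ⟨S, hS, hT⟩)] at h1
      rw [← h1]
      refine Finset.sum_congr rfl fun i _ => ?_
      rw [smul_eq_mul, mul_comm]
      congr 1
      refine congrArg f ?_
      funext j
      rw [Pi.single_apply]
      by_cases h : i = j
      · simp [h]
      · simp [h, Ne.symm h])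
    ext i
    have h2 := congrFun hβ i
    simpa using h2
  have hex : ∀ l : Fin k, ∃ b : CV d, Tng (pol x 1) c m (Up x b) ∧
      ∀ i, WF (pol x 0) (pol x 1) c v α i (Up x b) =
        (Pi.single l (((pol x 1).eval (c l) ^ 2)⁻¹) : Fin k → ℂ) i := by
    intro l
    have h1 : (Pi.single l (((pol x 1).eval (c l) ^ 2)⁻¹) : Fin k → ℂ) ∈ LinearMap.range Φ := by
      rw [hsurj]
      trivial
    obtain ⟨S, hS⟩ := h1
    obtain ⟨b, hb⟩ := exists_Up (by omega) x hx S.2.1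
    refine ⟨b, ?_, fun i => ?_⟩
    · rw [hb]
      exact S.2.2
    · rw [hb]
      exact congrFun hS i
  choose b hb1 hb2 using hex
  refine ⟨b, hb1, fun i l => ?_⟩
  rw [hb2]
  have hQ := hO.Qc i
  by_cases h : l = i
  · subst h
    rw [Pi.single_eq_same, if_pos rfl]
    field_simp
  · rw [Pi.single_eq_of_ne (Ne.symm h), if_neg h, mul_zero]

end Pool.Agent.H401.HY211
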